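import Pool.Agent.Q104.LT.Free
import Pool.Agent.Q104.QG.Free

set_option autoImplicit false

/-!
# Free `ℚ`-groups of rank at least two act freely on no `Λ`-tree

Free `ℚ`-groups exist on every set `X`, and if `X` has at least two elements then a free `ℚ`-group
on `X` acts freely on no `Λ`-tree, for any totally ordered abelian group `Λ`.
-/

namespace Pool.Agent.Results.MP_c6101b_al.NoFreeLambdaTreeAction

open Pool.Agent.Q104.LT Pool.Agent.Q104.QG

universe u v w z

theorem result :
    (∀ X : Type u, ∃ (F : Type u) (_ : Group F) (ι : X → F), IsFreeQGroup ι) ∧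
    ∀ (X : Type u) (F : Type v) [Group F] (ι : X → F), IsFreeQGroup ι → Nontrivial X →
      ∀ (Λ : Type w) [AddCommGroup Λ] [LinearOrder Λ] [IsOrderedAddMonoid Λ]
        (T : Type z) [MulAction F T] (M : LambdaMetric Λ T),
        M.IsTree → ¬ M.IsFreeAction F := by
  refine ⟨fun X => ⟨FQ X, inferInstance, _, FQ.isFreeQGroup⟩, ?_⟩
  intro X F _ ι hι hX Λ _ _ _ T _ M hM hfree
  obtain ⟨x, y, hxy⟩ := hX
  refine hι.not_comm hxy (hfree.comm hM (fun g => ?_) (ι x) (ι y))
  obtain ⟨r, hr, -⟩ := hι.1 3 (by norm_num) g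
  exact ⟨r, hr⟩

end Pool.Agent.Results.MP_c6101b_al.NoFreeLambdaTreeAction
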